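import Pool.Agent.H933.LL.Stm8
import Pool.Agent.H289.LL.Chb3

/-!
# Chain of averages with a general cost function
-/

set_option autoImplicit false

open MeasureTheory Metric
open scoped Real

namespace Pool.Agent.H353.LL

open Pool.Agent.H933.LL Pool.Agent.H289.LL

theorem p_chb4 (h : P_loc3) : P_chb4 := by
  intro X _ _ _ S K E C A g hE hne hg hQ hR r
  have hC : 0 ≤ C := rate_nonneg hR
  obtain ⟨B, Cq, hB, hchain⟩ := hQ r
  obtain ⟨e₀, he₀⟩ := hne
  have hne : E.Nonempty := ⟨e₀, he₀⟩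
  let M₀ : ℝ := ∑ b ∈ B, Real.log (1 + Real.posLog ‖resolvent (S + K) b‖)
  let a : ℝ := Real.log (50001 * (C + 1) ^ 3)
  let C₂ : ℝ := max Cq 0
  let A₁ : ℝ := max A 0
  let D₀ : ℝ := 25 * (C + 1) ^ 3 * (π * (|r| + ‖e₀‖) ^ 2 + 1)
  have hC3 : (1 : ℝ) ≤ (C + 1) ^ 3 := one_le_pow₀ (by linarith)
  have hD1 : 1 ≤ D₀ := by
    have h1 : 1 ≤ π * (|r| + ‖e₀‖) ^ 2 + 1 := by
      have : 0 ≤ π * (|r| + ‖e₀‖) ^ 2 := by positivity
      linarith
    show 1 ≤ 25 * (C + 1) ^ 3 * (π * (|r| + ‖e₀‖) ^ 2 + 1)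
    nlinarith
  refine ⟨Real.log D₀ + 3 * A₁ * C₂ + (M₀ + (a + 3 * A₁) * C₂), fun z hz hzE => ?_⟩
  have ha : 0 ≤ a := Real.log_nonneg (by linarith)
  have hA : 0 ≤ A₁ := le_max_right _ _
  have hC2 : 0 ≤ C₂ := le_max_right _ _
  have hterm : ∀ w : ℂ, 0 ≤ Real.log (1 + Real.posLog ‖resolvent (S + K) w‖) := by
    intro w
    have h1 : 0 ≤ Real.posLog ‖resolvent (S + K) w‖ := Real.posLog_nonneg
    exact Real.log_nonneg (by linarith)
  have hM : ∀ b ∈ B, Real.log (1 + Real.posLog ‖resolvent (S + K) b‖) ≤ M₀ := fun b hb =>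
    Finset.single_le_sum (f := fun b => Real.log (1 + Real.posLog ‖resolvent (S + K) b‖))
      (fun b _ => hterm b) hb
  have hM0 : 0 ≤ M₀ := Finset.sum_nonneg fun b _ => hterm b
  obtain ⟨N, c, hN, hc0, hcN, hc⟩ := hchain z hz hzE
  have hout : ∀ j, j ≤ N → c j ∉ E := by
    intro j
    induction j with
    | zero => intro _; exact (hB _ hc0).2
    | succ j ih =>
      intro hj
      have h1 := infDist_pos hE hne (ih (by omega))
      have h2 := hc j (by omega)
      have h3 := infDist_le_infDist_add_dist (s := E) (x := c j) (y := c (j + 1))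
      rw [dist_comm, dist_eq_norm] at h3
      exact notMem_of_pos (by linarith)
  let L : ℝ := Real.posLog (infDist z E)⁻¹
  have hL : 0 ≤ L := Real.posLog_nonneg
  have hgz : 0 ≤ g z := hg z
  have hsum : ∑ j ∈ Finset.range (N + 1), (1 + Real.posLog (infDist (c j) E)⁻¹) ≤ C₂ * (1 + g z) :=
    hN.trans (mul_le_mul_of_nonneg_right (le_max_left _ _) (by linarith))
  have hpos : ∀ j, 0 ≤ Real.posLog (infDist (c j) E)⁻¹ := fun j => Real.posLog_nonneg
  have hLg : 1 + L ≤ C₂ * (1 + g z) := by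
    have h1 : 1 + Real.posLog (infDist (c N) E)⁻¹ ≤
        ∑ j ∈ Finset.range (N + 1), (1 + Real.posLog (infDist (c j) E)⁻¹) :=
      Finset.single_le_sum (f := fun j => 1 + Real.posLog (infDist (c j) E)⁻¹)
        (fun j _ => by have := hpos j; linarith) (Finset.mem_range.2 (Nat.lt_succ_self N))
    rw [hcN] at h1
    exact h1.trans hsum
  have hm : ∀ j, j ≤ N → ∃ v : ℂ, ‖v - c j‖ < infDist (c j) E / 32 ∧
      v ∈ resolventSet ℂ (S + K) ∧ Real.log (1 + Real.posLog ‖resolvent (S + K) v‖) ≤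
      M₀ + ∑ i ∈ Finset.range j, (a + 3 * A₁ * (1 + Real.posLog (infDist (c i) E)⁻¹)) := by
    intro j
    induction j with
    | zero =>
      intro _
      have h1 := hM _ hc0
      have h2 := infDist_pos hE hne (hB _ hc0).2
      refine ⟨c 0, ?_, (hB _ hc0).1, by simpa using h1⟩
      rw [sub_self, norm_zero]
      linarith
    | succ j ih =>
      intro hj
      obtain ⟨v, hv1, hv2, h1⟩ := ih (by omega)
      obtain ⟨v₁, hv3, hv4, h2⟩ := step h X S K E C A hE hne hR (c j) v (c (j + 1))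
        (hout j (by omega)) hv1 hv2 (hc j (by omega))
      refine ⟨v₁, hv3, hv4, ?_⟩
      rw [Finset.sum_range_succ]
      have h6 : Real.log (1 + Real.posLog ‖resolvent (S + K) v₁‖) ≤
          Real.log (1 + Real.posLog ‖resolvent (S + K) v‖) +
          (a + 3 * A₁ * (1 + Real.posLog (infDist (c j) E)⁻¹)) := h2
      linarith
  obtain ⟨v, hv1, hv2, h1⟩ := hm N le_rfl
  rw [hcN] at hv1
  have h3 : ∑ i ∈ Finset.range N, (a + 3 * A₁ * (1 + Real.posLog (infDist (c i) E)⁻¹)) ≤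
      (a + 3 * A₁) * (C₂ * (1 + g z)) := by
    calc ∑ i ∈ Finset.range N, (a + 3 * A₁ * (1 + Real.posLog (infDist (c i) E)⁻¹))
        ≤ ∑ i ∈ Finset.range N, (a + 3 * A₁) * (1 + Real.posLog (infDist (c i) E)⁻¹) := by
          refine Finset.sum_le_sum fun i _ => ?_
          have := mul_nonneg ha (hpos i)
          nlinarith
      _ = (a + 3 * A₁) * ∑ i ∈ Finset.range N, (1 + Real.posLog (infDist (c i) E)⁻¹) := by
          rw [Finset.mul_sum]
      _ ≤ (a + 3 * A₁) * ∑ i ∈ Finset.range (N + 1), (1 + Real.posLog (infDist (c i) E)⁻¹) := by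
          refine mul_le_mul_of_nonneg_left ?_ (by positivity)
          rw [Finset.sum_range_succ]
          have := hpos N
          linarith
      _ ≤ _ := mul_le_mul_of_nonneg_left hsum (by positivity)
  have h6 : M₀ ≤ M₀ * (1 + g z) := by nlinarith
  have h7 : Real.log (1 + Real.posLog ‖resolvent (S + K) v‖) ≤
      (M₀ + (a + 3 * A₁) * C₂) * (1 + g z) := by
    have e : (M₀ + (a + 3 * A₁) * C₂) * (1 + g z) =
        M₀ * (1 + g z) + (a + 3 * A₁) * (C₂ * (1 + g z)) := by ring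
    rw [e]
    linarith
  have hδ := infDist_pos hE hne hzE
  obtain ⟨g1, g2⟩ := base h X S K E C A hE hne hR z v hzE hv1 hv2
  have hsub : ball z (infDist z E / 4) ⊆ ball z (11 * infDist z E / 32) :=
    ball_subset_ball (by linarith)
  refine ⟨ae_mono (Measure.restrict_mono hsub le_rfl) g1,
    (lintegral_mono_set hsub).trans (g2.trans (ENNReal.ofReal_le_ofReal ?_))⟩
  have hx0 : 0 ≤ Real.posLog ‖resolvent (S + K) v‖ := Real.posLog_nonneg
  have hδr : infDist z E ≤ |r| + ‖e₀‖ := by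
    have h8 := infDist_le_dist_of_mem (x := z) he₀
    rw [dist_eq_norm] at h8
    have h9 := norm_sub_le z e₀
    rw [mem_ball, dist_zero_right] at hz
    have h10 := le_abs_self r
    linarith
  have hδ2 : π * infDist z E ^ 2 ≤ π * (|r| + ‖e₀‖) ^ 2 + 1 := by
    have h8 : infDist z E ^ 2 ≤ (|r| + ‖e₀‖) ^ 2 := pow_le_pow_left₀ hδ.le hδr 2
    have h9 := mul_le_mul_of_nonneg_left h8 Real.pi_pos.le
    linarith
  have hfin : π * infDist z E ^ 2 * (25 * (C + 1) ^ 3 * Real.exp (3 * A₁ * (1 + L)) *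
      (1 + Real.posLog ‖resolvent (S + K) v‖)) ≤
      Real.exp (Real.log D₀ + 3 * A₁ * (1 + L) +
        Real.log (1 + Real.posLog ‖resolvent (S + K) v‖)) := by
    rw [Real.exp_add, Real.exp_add, Real.exp_log (by linarith), Real.exp_log (by linarith)]
    calc π * infDist z E ^ 2 * (25 * (C + 1) ^ 3 * Real.exp (3 * A₁ * (1 + L)) *
        (1 + Real.posLog ‖resolvent (S + K) v‖)) =
        (25 * (C + 1) ^ 3 * (π * infDist z E ^ 2)) * Real.exp (3 * A₁ * (1 + L)) *
        (1 + Real.posLog ‖resolvent (S + K) v‖) := by ring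
      _ ≤ (25 * (C + 1) ^ 3 * (π * (|r| + ‖e₀‖) ^ 2 + 1)) * Real.exp (3 * A₁ * (1 + L)) *
        (1 + Real.posLog ‖resolvent (S + K) v‖) := by gcongr
      _ = _ := rfl
  refine hfin.trans (Real.exp_le_exp.2 ?_)
  have hlD : 0 ≤ Real.log D₀ := Real.log_nonneg hD1
  have h8 : Real.log D₀ ≤ Real.log D₀ * (1 + g z) := by nlinarith
  have h9 : 3 * A₁ * (1 + L) ≤ 3 * A₁ * (C₂ * (1 + g z)) :=
    mul_le_mul_of_nonneg_left hLg (by positivity)
  show Real.log D₀ + 3 * A₁ * (1 + L) + Real.log (1 + Real.posLog ‖resolvent (S + K) v‖) ≤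
    (Real.log D₀ + 3 * A₁ * C₂ + (M₀ + (a + 3 * A₁) * C₂)) * (1 + g z)
  have e : (Real.log D₀ + 3 * A₁ * C₂ + (M₀ + (a + 3 * A₁) * C₂)) * (1 + g z) =
      Real.log D₀ * (1 + g z) + 3 * A₁ * (C₂ * (1 + g z)) +
        (M₀ + (a + 3 * A₁) * C₂) * (1 + g z) := by ring
  rw [e]
  linarith

end Pool.Agent.H353.LL
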